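import Pool.Agent.Helper51_CW.Var

set_option autoImplicit false
set_option linter.unusedSectionVars false

/-!
# PLANT: symmetrised partial injections are close to uniform
-/

namespace Pool.Agent.Helper51_CW

open Equiv Pool.Agent.Helper91_CW

section
variable {H B : Type} [Fintype H] [DecidableEq H] [Fintype B] [DecidableEq B]

theorem pt_mul_unif_mul_pt {G : Type} [Fintype G] [Group G] [DecidableEq G] (u w : G) (E E' : Finset G)
    (h : ∀ τ, τ ∈ E ↔ u * τ * w ∈ E') : pt u * unif E * pt w = unif E' := by
  have hcard : E.card = E'.card := by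
    refine Finset.card_bij (fun τ _ => u * τ * w) (fun τ hτ => (h τ).1 hτ) ?_ ?_
    · intro a _ b _ hab
      exact mul_left_cancel (mul_right_cancel hab)
    · intro b hb
      refine ⟨u⁻¹ * b * w⁻¹, (h _).2 ?_, ?_⟩
      · convert hb using 1; group
      · group
  unfold unif
  rw [hcard, mul_smul_comm, smul_mul_assoc, Finset.mul_sum, Finset.sum_mul]
  congr 1
  refine Finset.sum_bij (fun τ _ => u * τ * w) (fun τ hτ => (h τ).1 hτ) ?_ ?_ ?_
  · intro a _ b _ hab
    exact mul_left_cancel (mul_right_cancel hab)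
  · intro b hb
    refine ⟨u⁻¹ * b * w⁻¹, (h _).2 ?_, ?_⟩
    · convert hb using 1; group
    · group
  · intro τ _
    rw [pt_mul_pt, pt_mul_pt]

theorem pt_mul_unif {G : Type} [Fintype G] [Group G] [DecidableEq G] (u : G) (E E' : Finset G)
    (h : ∀ τ, τ ∈ E ↔ u * τ ∈ E') : pt u * unif E = unif E' := by
  have := pt_mul_unif_mul_pt u 1 E E' (by simpa using h)
  rwa [pt_one, mul_one] at this

theorem unif_mul_pt {G : Type} [Fintype G] [Group G] [DecidableEq G] (w : G) (E E' : Finset G)
    (h : ∀ τ, τ ∈ E ↔ τ * w ∈ E') : unif E * pt w = unif E' := by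
  have := pt_mul_unif_mul_pt 1 w E E' (by simpa using h)
  rwa [pt_one, one_mul] at this

theorem pt_mul_UU (u : PV H B) : pt u * UU H B = UU H B :=
  pt_mul_unif u _ _ (by simp)

theorem UU_mul_pt (u : PV H B) : UU H B * pt u = UU H B :=
  unif_mul_pt u _ _ (by simp)

variable {lv : H → ℕ} {Up : Finset H}

theorem mem_GLv {g : Perm H} : g ∈ GLv lv Up ↔ (∀ x, x ∉ Up → g x = x) ∧ ∀ x, lv (g x) = lv x := by
  unfold GLv
  rw [Finset.mem_filter]
  simp

theorem one_mem_GLv : (1 : Perm H) ∈ GLv lv Up := by
  rw [mem_GLv]; simp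

theorem mul_mem_GLv {g h : Perm H} (hg : g ∈ GLv lv Up) (hh : h ∈ GLv lv Up) :
    g * h ∈ GLv lv Up := by
  rw [mem_GLv] at *
  refine ⟨fun x hx => ?_, fun x => ?_⟩
  · rw [Perm.mul_apply, hh.1 x hx, hg.1 x hx]
  · rw [Perm.mul_apply, hg.2, hh.2]

theorem inv_mem_GLv {g : Perm H} (hg : g ∈ GLv lv Up) : g⁻¹ ∈ GLv lv Up := by
  rw [mem_GLv] at *
  refine ⟨fun x hx => ?_, fun x => ?_⟩
  · rw [Perm.inv_eq_iff_eq, hg.1 x hx]
  · have := hg.2 (g⁻¹ x)
    rw [← Perm.mul_apply, mul_inv_cancel, Perm.one_apply] at this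
    exact this.symm

theorem swap_mem_GLv {a b : H} (ha : a ∈ Up) (hb : b ∈ Up) (hab : lv a = lv b) :
    swap a b ∈ GLv lv Up := by
  rw [mem_GLv]
  constructor
  · intro x hx
    apply swap_apply_of_ne_of_ne
    · rintro rfl; exact hx ha
    · rintro rfl; exact hx hb
  · intro x
    rw [swap_apply_def]
    split_ifs with h1 h2
    · rw [h1, hab]
    · rw [h2, hab]
    · rfl

theorem sumCongr_mul (g h : Perm H) : (Perm.sumCongr g (1 : Perm B)) * Perm.sumCongr h 1 =
    Perm.sumCongr (g * h) 1 := by
  rw [Perm.sumCongr_mul, mul_one]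

theorem GLv_card_pos : (0 : ℝ) < (GLv lv Up).card := by
  have : (GLv lv Up).Nonempty := ⟨1, one_mem_GLv⟩
  exact_mod_cast this.card_pos

theorem uG_mul_pt {g : Perm H} (hg : g ∈ GLv lv Up) :
    uG B lv Up * pt (Perm.sumCongr g (1 : Perm B)) = uG B lv Up := by
  unfold uG
  rw [smul_mul_assoc, Finset.sum_mul]
  congr 1
  refine Finset.sum_bij (fun h _ => h * g) (fun h hh => mul_mem_GLv hh hg) ?_ ?_ ?_
  · intro a _ b _ hab
    exact mul_right_cancel hab
  · intro b hb
    exact ⟨b * g⁻¹, mul_mem_GLv hb (inv_mem_GLv hg), by group⟩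
  · intro h _
    rw [pt_mul_pt, sumCongr_mul]

theorem pt_mul_uG {g : Perm H} (hg : g ∈ GLv lv Up) :
    pt (Perm.sumCongr g (1 : Perm B)) * uG B lv Up = uG B lv Up := by
  unfold uG
  rw [mul_smul_comm, Finset.mul_sum]
  congr 1
  refine Finset.sum_bij (fun h _ => g * h) (fun h hh => mul_mem_GLv hg hh) ?_ ?_ ?_
  · intro a _ b _ hab
    exact mul_left_cancel hab
  · intro b hb
    exact ⟨g⁻¹ * b, mul_mem_GLv (inv_mem_GLv hg) hb, by group⟩
  · intro h _
    rw [pt_mul_pt, sumCongr_mul]

theorem uG_mul_UU : uG B lv Up * UU H B = UU H B := by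
  unfold uG
  rw [smul_mul_assoc, Finset.sum_mul, Finset.sum_congr rfl fun g _ => pt_mul_UU _,
    Finset.sum_const, ← Nat.cast_smul_eq_nsmul ℝ, smul_smul, inv_mul_cancel₀ GLv_card_pos.ne',
    one_smul]

theorem UU_mul_uG : UU H B * uG B lv Up = UU H B := by
  unfold uG
  rw [mul_smul_comm, Finset.mul_sum, Finset.sum_congr rfl fun g _ => UU_mul_pt _,
    Finset.sum_const, ← Nat.cast_smul_eq_nsmul ℝ, smul_smul, inv_mul_cancel₀ GLv_card_pos.ne',
    one_smul]

theorem nrm_uG_le : nrm (uG B lv Up) ≤ 1 := by
  unfold uG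
  rw [nrm_smul, abs_of_pos (inv_pos.2 GLv_card_pos), inv_mul_le_iff₀ GLv_card_pos]
  refine (nrm_sum_le _ _).trans ?_
  rw [Finset.sum_congr rfl fun g _ => nrm_pt _, Finset.sum_const, nsmul_eq_mul]

theorem nrm_uG_mul_le (x : Alg (PV H B)) : nrm (uG B lv Up * x * uG B lv Up) ≤ nrm x := by
  have h0 := nrm_nonneg x
  have h1 := nrm_nonneg (uG B lv Up)
  have h2 := nrm_uG_le (B := B) (lv := lv) (Up := Up)
  calc _ ≤ nrm (uG B lv Up * x) * nrm (uG B lv Up) := nrm_mul_le _ _
    _ ≤ (nrm (uG B lv Up) * nrm x) * nrm (uG B lv Up) := by gcongr; exact nrm_mul_le _ _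
    _ ≤ (1 * nrm x) * 1 := by gcongr
    _ = nrm x := by ring

/-- moving the planted pair -/
theorem US_move {S : H → Option H} {a b x y : H} (hb : S b = none) (ha : ∀ z, S z ≠ some a)
    (hx : S x = none) (hy : ∀ z, S z ≠ some y) :
    pt (Perm.sumCongr (swap a y) (1 : Perm B)) * US B (Function.update S b (some a)) *
      pt (Perm.sumCongr (swap b x) (1 : Perm B)) = US B (Function.update S x (some y)) := by
  unfold US
  apply pt_mul_unif_mul_pt
  intro τ
  rw [mem_ext_update hb, mem_ext_update hx, mem_ext, mem_ext]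
  have key : ∀ z, ((Perm.sumCongr (swap a y) (1 : Perm B) * τ *
      Perm.sumCongr (swap b x) (1 : Perm B) : PV H B)) (Sum.inl z) =
      Perm.sumCongr (swap a y) (1 : Perm B) (τ (Sum.inl (swap b x z))) := by
    intro z
    rw [Perm.mul_apply, Perm.mul_apply]
    rfl
  have key2 : ∀ (v : H ⊕ B) (z : H), Perm.sumCongr (swap a y) (1 : Perm B) v = Sum.inl z ↔
      v = Sum.inl (swap a y z) := by
    intro v z
    rw [← Equiv.eq_symm_apply]
    rfl
  constructor
  · rintro ⟨h1, h2⟩
    refine ⟨fun z w hz => ?_, ?_⟩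
    · rw [key, key2]
      have e1 : swap b x z = z := by
        apply swap_apply_of_ne_of_ne
        · rintro rfl; rw [hb] at hz; cases hz
        · rintro rfl; rw [hx] at hz; cases hz
      have e2 : swap a y w = w := by
        apply swap_apply_of_ne_of_ne
        · rintro rfl; exact ha z hz
        · rintro rfl; exact hy z hz
      rw [e1, e2, h1 z w hz]
    · rw [key, key2, swap_apply_right, h2, swap_apply_right]
  · rintro ⟨h1, h2⟩
    refine ⟨fun z w hz => ?_, ?_⟩
    · have h3 := h1 z w hz
      rw [key, key2] at h3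
      have e1 : swap b x z = z := by
        apply swap_apply_of_ne_of_ne
        · rintro rfl; rw [hb] at hz; cases hz
        · rintro rfl; rw [hx] at hz; cases hz
      have e2 : swap a y w = w := by
        apply swap_apply_of_ne_of_ne
        · rintro rfl; exact ha z hz
        · rintro rfl; exact hy z hz
      rwa [e1, e2] at h3
    · rw [key, key2, swap_apply_right, swap_apply_right] at h2
      exact h2

end

theorem sqrt_bound {n A P : ℝ} (hn : 0 ≤ n) (hA : 0 < A) (hP : 0 < P) (h : A ≤ 4 * P) :
    Real.sqrt (n / P) ≤ 2 * Real.sqrt (n / A) := by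
  have h6 : (2 : ℝ) = Real.sqrt 4 := by
    rw [show (4 : ℝ) = 2 ^ 2 by norm_num, Real.sqrt_sq (by norm_num)]
  rw [h6, ← Real.sqrt_mul (by norm_num)]
  apply Real.sqrt_le_sqrt
  rw [mul_div_assoc', div_le_div_iff₀ hP hA]
  nlinarith

theorem avg_eq {H B : Type} [Fintype H] [DecidableEq H] [Fintype B] [DecidableEq B]
    (u z : Alg (PV H B)) (X Y : Finset H) (hX : X.Nonempty) (hY : Y.Nonempty)
    (F : H → H → Alg (PV H B)) (h : ∀ x ∈ X, ∀ y ∈ Y, u * F x y * u = z) :
    u * (((X.card : ℝ) * Y.card)⁻¹ • ∑ x ∈ X, ∑ y ∈ Y, F x y) * u = z := by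
  have hXpos : (0 : ℝ) < X.card := by exact_mod_cast hX.card_pos
  have hYpos : (0 : ℝ) < Y.card := by exact_mod_cast hY.card_pos
  rw [mul_smul_comm, smul_mul_assoc, Finset.mul_sum, Finset.sum_mul]
  rw [Finset.sum_congr rfl (g := fun _ => (Y.card : ℝ) • z)]
  · rw [Finset.sum_const, ← Nat.cast_smul_eq_nsmul ℝ, smul_smul, smul_smul,
      mul_assoc, inv_mul_cancel₀ (by positivity), one_smul]
  · intro x hx
    rw [Finset.mul_sum, Finset.sum_mul, Finset.sum_congr rfl (h x hx), Finset.sum_const,
      ← Nat.cast_smul_eq_nsmul ℝ]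

theorem split_eq {R : Type} [Ring R] (u a b z w : R) (h : u * a * u = z) :
    z - w = u * (a - b) * u + (u * b * u - w) := by
  rw [mul_sub, sub_mul, h]; abel

theorem final_step {N1 N2 N3 s c sq : ℝ} (h1 : N1 ≤ sq) (h2 : sq ≤ c) (h3 : N2 ≤ s * c)
    (h4 : N3 ≤ N1) : N3 + N2 ≤ (s + 1) * c := by
  linarith

theorem plant : PlantStatement := by
  intro H B _ _ _ _ hB lv Up r0 A hr0 hA
  have main : ∀ (s : ℕ) (S : H → Option H), PInj S →
      (∀ x y, S x = some y → GoodPair lv Up r0 A x y) →
      (Finset.univ.filter fun x => S x ≠ none).card = s → s ≤ r0 →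
      nrm (uG B lv Up * US B S * uG B lv Up - UU H B) ≤
        (s : ℝ) * (2 * Real.sqrt ((Fintype.card H + Fintype.card B : ℕ) / A)) := by
    intro s
    induction s with
    | zero =>
      intro S _ _ hc _
      have hS : ext B S = Finset.univ := by
        ext σ
        simp only [Finset.mem_univ, iff_true]
        rw [mem_ext]
        intro x y hxy
        rw [Finset.card_eq_zero, Finset.filter_eq_empty_iff] at hc
        have := hc (Finset.mem_univ x)
        simp [hxy] at this
      have : US B S = UU H B := by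
        unfold US UU
        rw [hS]
      rw [this, uG_mul_UU, UU_mul_uG, sub_self, nrm_zero]
      simp
    | succ s ih =>
      intro S hS hgood h hsr
      have h1 : (Finset.univ.filter fun x => S x ≠ none).Nonempty := by
        rw [← Finset.card_pos]; omega
      obtain ⟨b, hbm⟩ := h1
      rw [Finset.mem_filter] at hbm
      obtain ⟨a, hba⟩ := Option.ne_none_iff_exists'.1 hbm.2
      set S' := Function.update S b none with hS'
      have e1 : Function.update S' b (some a) = S := by
        rw [hS', Function.update_idem, ← hba, Function.update_eq_self]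
      have hb' : S' b = none := by simp [hS']
      have hsub : ∀ x y, S' x = some y → S x = some y ∧ x ≠ b := by
        intro x y hxy
        by_cases hxb : x = b
        · subst hxb; rw [hb'] at hxy; cases hxy
        · rw [hS', Function.update_of_ne hxb] at hxy
          exact ⟨hxy, hxb⟩
      have ha' : ∀ x', S' x' ≠ some a := by
        intro x' h'
        obtain ⟨h2, h3⟩ := hsub x' a h'
        exact h3 (hS x' b a h2 hba)
      have hP : PInj S' := fun u v z hu hv => hS u v z (hsub u z hu).1 (hsub v z hv).1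
      have hdom : (Finset.univ.filter fun x => S' x ≠ none) =
            (Finset.univ.filter fun x => S x ≠ none).erase b := by
        ext x
        rw [Finset.mem_erase, Finset.mem_filter, Finset.mem_filter]
        by_cases hax : x = b
        · subst hax; simp [hb']
        · simp [hS', hax]
      have hcard : (Finset.univ.filter fun x => S' x ≠ none).card = s := by
        rw [hdom, Finset.card_erase_of_mem (by rw [Finset.mem_filter]; exact hbm), h]
        rfl
      have hgood' : ∀ x y, S' x = some y → GoodPair lv Up r0 A x y :=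
        fun x y hxy => hgood x y (hsub x y hxy).1
      have hi := ih S' hP hgood' hcard (by omega)
      obtain ⟨hbU, haU, hszb, hsza, hAA⟩ := hgood b a hba
      -- the sets X and Y
      set X := (Up.filter fun z => lv z = lv b) \ (Finset.univ.filter fun x => S' x ≠ none) with hX
      set Rg := Up.filter fun y => ∃ x, S' x = some y with hRg
      set Y := (Up.filter fun z => lv z = lv a) \ Rg with hY
      have hRgc : Rg.card ≤ s := by
        rw [← hcard]
        have hch : ∀ y ∈ Rg, ∃ x, S' x = some y := fun y hy => (Finset.mem_filter.1 hy).2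
        choose! f hf using hch
        refine Finset.card_le_card_of_injOn f ?_ ?_
        · intro y hy
          have := hf y hy
          simp [this]
        · intro y hy z hz hyz
          have h1 := hf y hy
          have h2 := hf z hz
          rw [hyz, h2] at h1
          exact (Option.some_injective _ h1).symm
      have hXc : szl lv Up b ≤ X.card + s := by
        have h1 : (Up.filter fun z => lv z = lv b).card -
            (Finset.univ.filter fun x => S' x ≠ none).card ≤ X.card := Finset.le_card_sdiff _ _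
        rw [hcard] at h1
        unfold szl
        omega
      have hYc : szl lv Up a ≤ Y.card + s := by
        have h1 : (Up.filter fun z => lv z = lv a).card - Rg.card ≤ Y.card :=
          Finset.le_card_sdiff _ _
        unfold szl
        omega
      have hX2 : (szl lv Up b : ℝ) ≤ 2 * X.card := by
        have : szl lv Up b ≤ 2 * X.card := by omega
        exact_mod_cast this
      have hY2 : (szl lv Up a : ℝ) ≤ 2 * Y.card := by
        have : szl lv Up a ≤ 2 * Y.card := by omega
        exact_mod_cast this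
      have hXne : X.Nonempty := by rw [← Finset.card_pos]; omega
      have hYne : Y.Nonempty := by rw [← Finset.card_pos]; omega
      have hXf : ∀ x ∈ X, x ∈ Up ∧ lv x = lv b ∧ S' x = none := by
        intro x hx
        rw [hX, Finset.mem_sdiff, Finset.mem_filter, Finset.mem_filter] at hx
        refine ⟨hx.1.1, hx.1.2, ?_⟩
        by_contra hc
        exact hx.2 ⟨Finset.mem_univ _, hc⟩
      have hYf : ∀ y ∈ Y, y ∈ Up ∧ lv y = lv a ∧ ∀ x, S' x ≠ some y := by
        intro y hy
        rw [hY, Finset.mem_sdiff, Finset.mem_filter] at hy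
        refine ⟨hy.1.1, hy.1.2, fun x hxy => hy.2 ?_⟩
        rw [hRg, Finset.mem_filter]
        exact ⟨hy.1.1, x, hxy⟩
      have hv := var H B hB S' hP X Y hXne hYne (fun x hx => (hXf x hx).2.2)
        (fun y hy => (hYf y hy).2.2)
      set avg : Alg (PV H B) := ((X.card : ℝ) * Y.card)⁻¹ • ∑ x ∈ X, ∑ y ∈ Y,
          US B (Function.update S' x (some y)) with havg
      have hXpos : (0 : ℝ) < X.card := by exact_mod_cast hXne.card_pos
      have hYpos : (0 : ℝ) < Y.card := by exact_mod_cast hYne.card_pos
      have heq : uG B lv Up * avg * uG B lv Up = uG B lv Up * US B S * uG B lv Up := by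
        have h1 : ∀ x ∈ X, ∀ y ∈ Y, uG B lv Up * US B (Function.update S' x (some y)) *
            uG B lv Up = uG B lv Up * US B S * uG B lv Up := by
          intro x hx y hy
          rw [← US_move (B := B) hb' ha' (hXf x hx).2.2 (hYf y hy).2.2, e1]
          rw [mul_assoc (pt _) (US B S) (pt _), ← mul_assoc (uG B lv Up) (pt _),
            uG_mul_pt (swap_mem_GLv haU (hYf y hy).1 (hYf y hy).2.1.symm), mul_assoc, mul_assoc,
            pt_mul_uG (swap_mem_GLv hbU (hXf x hx).1 (hXf x hx).2.1.symm), ← mul_assoc]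
        exact avg_eq _ _ X Y hXne hYne _ h1
      have hbound : Real.sqrt ((Fintype.card H + Fintype.card B : ℕ) / ((X.card : ℝ) * Y.card)) ≤
          2 * Real.sqrt ((Fintype.card H + Fintype.card B : ℕ) / A) := by
        have h4 : A ≤ 4 * ((X.card : ℝ) * Y.card) := by
          have h5 : (szl lv Up b : ℝ) * szl lv Up a ≤ (2 * X.card) * (2 * Y.card) := by gcongr
          linarith
        exact sqrt_bound (Nat.cast_nonneg _) hA (by positivity) h4
      rw [split_eq (uG B lv Up) avg (US B S') _ (UU H B) heq]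
      refine (nrm_add_le _ _).trans ?_
      rw [Nat.cast_add, Nat.cast_one]
      exact final_step hv hbound hi (nrm_uG_mul_le (lv := lv) (Up := Up) (avg - US B S'))
  intro S hS hgood hc
  exact main _ S hS hgood rfl hc

end Pool.Agent.Helper51_CW
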