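import Pool.Agent.Helper91_CW.Mods
import Pool.Agent.Helper91_CW.Alg

set_option autoImplicit false
set_option linter.unusedSectionVars false

/-!
# VAR: planting one random pair (second moment)
-/

namespace Pool.Agent.Helper51_CW

open Equiv Pool.Agent.Helper91_CW

section
variable {H B : Type} [Fintype H] [DecidableEq H] [Fintype B] [DecidableEq B]

/-- partial injections -/
def PInj (S : H → Option H) : Prop := ∀ x x' y, S x = some y → S x' = some y → x = x'

/-- values which are not taken -/
def Fv (B : Type) [Fintype B] [DecidableEq B] (S : H → Option H) : Finset (H ⊕ B) :=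
  Finset.univ.filter fun v => ∀ x y, S x = some y → v ≠ Sum.inl y

theorem mem_Fv {S : H → Option H} {v : H ⊕ B} :
    v ∈ Fv B S ↔ ∀ x y, S x = some y → v ≠ Sum.inl y := by simp [Fv]

theorem mem_ext {S : H → Option H} {σ : PV H B} :
    σ ∈ ext B S ↔ ∀ x y, S x = some y → σ (Sum.inl x) = Sum.inl y := by
  unfold Helper91_CW.ext
  rw [Finset.mem_filter]
  simp

theorem mem_ext_update {S : H → Option H} {x y : H} (hx : S x = none) {σ : PV H B} :
    σ ∈ ext B (Function.update S x (some y)) ↔ σ ∈ ext B S ∧ σ (Sum.inl x) = Sum.inl y := by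
  rw [mem_ext, mem_ext]
  constructor
  · intro h
    refine ⟨fun x' y' h' => h x' y' ?_, h x y (by simp)⟩
    rwa [Function.update_of_ne]
    rintro rfl
    rw [hx] at h'
    cases h'
  · rintro ⟨h1, h2⟩ x' y' h'
    by_cases hxx : x' = x
    · subst hxx
      rw [Function.update_self] at h'
      cases h'
      exact h2
    · rw [Function.update_of_ne hxx] at h'
      exact h1 x' y' h'

theorem PInj.update {S : H → Option H} (hS : PInj S) {x y : H} (hy : ∀ x', S x' ≠ some y) :
    PInj (Function.update S x (some y)) := by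
  intro a b z ha hb
  by_cases h1 : a = x <;> by_cases h2 : b = x
  · rw [h1, h2]
  · subst h1
    rw [Function.update_self] at ha
    cases ha
    rw [Function.update_of_ne h2] at hb
    exact absurd hb (hy b)
  · subst h2
    rw [Function.update_self] at hb
    cases hb
    rw [Function.update_of_ne h1] at ha
    exact absurd ha (hy a)
  · rw [Function.update_of_ne h1] at ha
    rw [Function.update_of_ne h2] at hb
    exact hS a b z ha hb

theorem card_Fv_update {S : H → Option H} {x y : H} (hx : S x = none) (hy : ∀ x', S x' ≠ some y) :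
    (Fv B (Function.update S x (some y))).card + 1 = (Fv B S).card := by
  have h1 : Fv B (Function.update S x (some y)) = (Fv B S).erase (Sum.inl y) := by
    ext v
    rw [Finset.mem_erase, mem_Fv, mem_Fv]
    constructor
    · intro h
      refine ⟨h x y (by simp), fun x' y' h' => h x' y' ?_⟩
      rwa [Function.update_of_ne]
      rintro rfl
      rw [hx] at h'
      cases h'
    · rintro ⟨h1, h2⟩ x' y' h'
      by_cases hxx : x' = x
      · subst hxx
        rw [Function.update_self] at h'
        cases h'
        exact h1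
      · rw [Function.update_of_ne hxx] at h'
        exact h2 x' y' h'
  have h2 : (Sum.inl y : H ⊕ B) ∈ Fv B S := by
    rw [mem_Fv]
    rintro x' y' h' h''
    cases h''
    exact hy x' h'
  rw [h1, Finset.card_erase_add_one h2]

/-- the first moment identity -/
theorem card_ext_update {S : H → Option H} {x y : H} (hx : S x = none) (hy : ∀ x', S x' ≠ some y) :
    (Fv B S).card * (ext B (Function.update S x (some y))).card = (ext B S).card := by
  have h2 : (Sum.inl y : H ⊕ B) ∈ Fv B S := by
    rw [mem_Fv]
    rintro x' y' h' h''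
    cases h''
    exact hy x' h'
  have hmaps : ∀ σ ∈ ext B S, σ (Sum.inl x) ∈ Fv B S := by
    intro σ hσ
    rw [mem_ext] at hσ
    rw [mem_Fv]
    intro x' y' h' h''
    have h3 := hσ x' y' h'
    have h4 : x = x' := by
      have := σ.injective (h''.trans h3.symm)
      exact Sum.inl_injective this
    subst h4
    rw [hx] at h'
    cases h'
  rw [Finset.card_eq_sum_card_fiberwise hmaps]
  rw [Finset.sum_const_nat (m := (ext B (Function.update S x (some y))).card)]
  intro v hv
  refine Finset.card_bij (fun σ _ => swap v (Sum.inl y) * σ) ?_ ?_ ?_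
  · intro σ hσ
    rw [Finset.mem_filter] at hσ
    rw [mem_ext_update hx, mem_ext]
    constructor
    · intro x' y' h'
      rw [Perm.mul_apply, (mem_ext.1 hσ.1) x' y' h', swap_apply_of_ne_of_ne]
      · exact ((mem_Fv.1 hv) x' y' h').symm
      · exact ((mem_Fv.1 h2) x' y' h').symm
    · rw [Perm.mul_apply, hσ.2, swap_apply_left]
  · intro σ _ τ _ h
    exact mul_left_cancel h
  · intro τ hτ
    rw [mem_ext_update hx, mem_ext] at hτ
    refine ⟨swap v (Sum.inl y) * τ, ?_, ?_⟩
    · rw [Finset.mem_filter, mem_ext]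
      constructor
      · intro x' y' h'
        rw [Perm.mul_apply, hτ.1 x' y' h', swap_apply_of_ne_of_ne]
        · exact ((mem_Fv.1 hv) x' y' h').symm
        · exact ((mem_Fv.1 h2) x' y' h').symm
      · rw [Perm.mul_apply, hτ.2, swap_apply_right]
    · rw [← mul_assoc, swap_mul_self, one_mul]

theorem ext_nonempty : ∀ (n : ℕ) (S : H → Option H), PInj S →
    (Finset.univ.filter fun x => S x ≠ none).card = n → (ext B S).Nonempty := by
  intro n
  induction n with
  | zero =>
    intro S _ h
    refine ⟨1, ?_⟩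
    rw [mem_ext]
    intro x y hxy
    rw [Finset.card_eq_zero, Finset.filter_eq_empty_iff] at h
    have := h (Finset.mem_univ x)
    simp [hxy] at this
  | succ n ih =>
    intro S hS h
    have h1 : (Finset.univ.filter fun x => S x ≠ none).Nonempty := by
      rw [← Finset.card_pos]; omega
    obtain ⟨x, hx⟩ := h1
    rw [Finset.mem_filter] at hx
    obtain ⟨y, hy⟩ := Option.ne_none_iff_exists'.1 hx.2
    set S' := Function.update S x none with hS'
    have e1 : Function.update S' x (some y) = S := by
      rw [hS', Function.update_idem, ← hy, Function.update_eq_self]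
    have hx' : S' x = none := by simp [hS']
    have hy' : ∀ x', S' x' ≠ some y := by
      intro x' h'
      by_cases hxx : x' = x
      · subst hxx; rw [hx'] at h'; cases h'
      · rw [hS', Function.update_of_ne hxx] at h'
        exact hxx (hS x' x y h' hy)
    have hP : PInj S' := by
      intro a b z ha hb
      by_cases h1 : a = x
      · subst h1; rw [hx'] at ha; cases ha
      · by_cases h2 : b = x
        · subst h2; rw [hx'] at hb; cases hb
        · rw [hS', Function.update_of_ne h1] at ha
          rw [hS', Function.update_of_ne h2] at hb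
          exact hS a b z ha hb
    have hcard : (Finset.univ.filter fun x => S' x ≠ none).card = n := by
      have : (Finset.univ.filter fun x => S' x ≠ none) =
          (Finset.univ.filter fun x => S x ≠ none).erase x := by
        ext a
        rw [Finset.mem_erase, Finset.mem_filter, Finset.mem_filter]
        by_cases hax : a = x
        · subst hax; simp [hx']
        · simp [hS', hax]
      rw [this, Finset.card_erase_of_mem (by rw [Finset.mem_filter]; exact hx), h]
      rfl
    have h3 := ih S' hP hcard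
    have h4 := card_ext_update (B := B) hx' hy'
    rw [e1] at h4
    rw [← Finset.card_pos] at h3 ⊢
    rw [← h4] at h3
    exact Nat.pos_of_mul_pos_left h3

/-- number of pairs of `X × Y` realised by `σ` -/
def NN (X Y : Finset H) (σ : PV H B) : ℝ :=
  ∑ x ∈ X, ∑ y ∈ Y, if σ (Sum.inl x) = Sum.inl y then 1 else 0

theorem NN_nonneg (X Y : Finset H) (σ : PV H B) : 0 ≤ NN X Y σ :=
  Finset.sum_nonneg fun _ _ => Finset.sum_nonneg fun _ _ => by split_ifs <;> norm_num

/-- free sets -/
def Free (S : H → Option H) (X Y : Finset H) : Prop :=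
  (∀ x ∈ X, S x = none) ∧ ∀ y ∈ Y, ∀ x, S x ≠ some y

theorem sum_ind {S : H → Option H} {x y : H} (hx : S x = none) :
    ∑ σ ∈ ext B S, (if σ (Sum.inl x) = Sum.inl y then (1 : ℝ) else 0) =
      (ext B (Function.update S x (some y))).card := by
  rw [Finset.sum_ite, Finset.sum_const_zero, add_zero, Finset.sum_const, nsmul_eq_mul, mul_one]
  congr 2
  ext σ
  rw [Finset.mem_filter, mem_ext_update hx]

theorem first {S : H → Option H} {X Y : Finset H} (hf : Free S X Y) :
    ((Fv B S).card : ℝ) * ∑ σ ∈ ext B S, NN X Y σ = X.card * Y.card * (ext B S).card := by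
  unfold NN
  rw [Finset.sum_comm, Finset.mul_sum]
  have : ∀ x ∈ X, ((Fv B S).card : ℝ) * ∑ σ ∈ ext B S, ∑ y ∈ Y,
      (if σ (Sum.inl x) = Sum.inl y then (1 : ℝ) else 0) = Y.card * (ext B S).card := by
    intro x hx
    rw [Finset.sum_comm, Finset.mul_sum]
    rw [Finset.sum_congr rfl (g := fun _ => ((ext B S).card : ℝ))]
    · rw [Finset.sum_const, nsmul_eq_mul]
    · intro y hy
      rw [sum_ind (hf.1 x hx), ← card_ext_update (hf.1 x hx) (hf.2 y hy)]
      push_cast
      ring
  rw [Finset.sum_congr rfl this, Finset.sum_const, nsmul_eq_mul]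
  ring

theorem card_le_Fv {S : H → Option H} {X Y : Finset H} (hS : PInj S) (hf : Free S X Y) :
    X.card ≤ (Fv B S).card ∧ Y.card ≤ (Fv B S).card := by
  constructor
  · obtain ⟨σ, hσ⟩ := ext_nonempty (B := B) _ S hS rfl
    refine Finset.card_le_card_of_injOn (fun x => σ (Sum.inl x)) ?_ ?_
    · intro x hx
      simp only [Finset.mem_coe] at hx ⊢
      rw [mem_Fv]
      intro x' y' h' h''
      have h3 := (mem_ext.1 hσ) x' y' h'
      have h4 : x = x' := Sum.inl_injective (σ.injective (h''.trans h3.symm))
      subst h4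
      rw [hf.1 x hx] at h'
      cases h'
    · intro a _ b _ h
      exact Sum.inl_injective (σ.injective h)
  · refine Finset.card_le_card_of_injOn (fun y => Sum.inl y) ?_ ?_
    · intro y hy
      simp only [Finset.mem_coe] at hy ⊢
      rw [mem_Fv]
      rintro x' y' h' h''
      cases h''
      exact hf.2 y hy x' h'
    · intro a _ b _ h
      exact Sum.inl_injective h

theorem Free.update {S : H → Option H} {X Y : Finset H} (hf : Free S X Y) {x y : H} (hx : x ∈ X)
    (hy : y ∈ Y) : Free (Function.update S x (some y)) (X.erase x) (Y.erase y) := by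
  constructor
  · intro a ha
    rw [Finset.mem_erase] at ha
    rw [Function.update_of_ne ha.1]
    exact hf.1 a ha.2
  · intro b hb a h
    rw [Finset.mem_erase] at hb
    by_cases hax : a = x
    · subst hax
      rw [Function.update_self] at h
      cases h
      exact hb.1 rfl
    · rw [Function.update_of_ne hax] at h
      exact hf.2 b hb.2 a h

theorem NN_of_mem {X Y : Finset H} {x y : H} (hx : x ∈ X) (hy : y ∈ Y)
    {σ : PV H B} (hσ : σ (Sum.inl x) = Sum.inl y) :
    NN X Y σ = 1 + NN (X.erase x) (Y.erase y) σ := by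
  unfold NN
  rw [← Finset.add_sum_erase X _ hx]
  congr 1
  · rw [Finset.sum_eq_single y]
    · simp [hσ]
    · intro b _ hb
      rw [if_neg]
      rw [hσ]
      intro h
      exact hb (Sum.inl_injective h).symm
    · intro h; exact absurd hy h
  · refine Finset.sum_congr rfl fun a ha => ?_
    rw [← Finset.add_sum_erase Y _ hy, if_neg, zero_add]
    intro h
    rw [← hσ] at h
    exact (Finset.mem_erase.1 ha).1 (Sum.inl_injective (σ.injective h))

theorem second {S : H → Option H} {X Y : Finset H} (hS : PInj S) (hf : Free S X Y)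
    (hX : X.Nonempty) (hY : Y.Nonempty) :
    ((Fv B S).card : ℝ) ^ 2 * ∑ σ ∈ ext B S, NN X Y σ ^ 2 ≤
      X.card * Y.card * (ext B S).card * ((Fv B S).card + X.card * Y.card) := by
  set n : ℝ := ((Fv B S).card : ℝ) with hn
  have hXn := (card_le_Fv (B := B) hS hf).1
  have hYn := (card_le_Fv (B := B) hS hf).2
  have hX1 : (1 : ℝ) ≤ X.card := by exact_mod_cast hX.card_pos
  have hY1 : (1 : ℝ) ≤ Y.card := by exact_mod_cast hY.card_pos
  have hXnr : (X.card : ℝ) ≤ n := Nat.cast_le.2 hXn
  have hYnr : (Y.card : ℝ) ≤ n := Nat.cast_le.2 hYn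
  -- expand the square
  have e1 : ∀ σ : PV H B, NN X Y σ ^ 2 =
      ∑ x ∈ X, ∑ y ∈ Y, (if σ (Sum.inl x) = Sum.inl y then 1 else 0) *
        (1 + NN (X.erase x) (Y.erase y) σ) := by
    intro σ
    rw [sq]
    conv_lhs => rw [show NN X Y σ * NN X Y σ = (∑ x ∈ X, ∑ y ∈ Y,
      if σ (Sum.inl x) = Sum.inl y then (1 : ℝ) else 0) * NN X Y σ from rfl]
    rw [Finset.sum_mul]
    refine Finset.sum_congr rfl fun x hx => ?_
    rw [Finset.sum_mul]
    refine Finset.sum_congr rfl fun y hy => ?_
    split_ifs with h
    · rw [NN_of_mem hx hy h]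
    · simp
  -- each term
  have e2 : ∀ x ∈ X, ∀ y ∈ Y, n ^ 2 * ∑ σ ∈ ext B S,
      (if σ (Sum.inl x) = Sum.inl y then 1 else 0) * (1 + NN (X.erase x) (Y.erase y) σ) ≤
      (ext B S).card * (n + X.card * Y.card) := by
    intro x hx y hy
    set S' := Function.update S x (some y) with hS'
    have e3 : ∑ σ ∈ ext B S, (if σ (Sum.inl x) = Sum.inl y then (1 : ℝ) else 0) *
        (1 + NN (X.erase x) (Y.erase y) σ) =
        (ext B S').card + ∑ σ ∈ ext B S', NN (X.erase x) (Y.erase y) σ := by
      have : ext B S' = (ext B S).filter fun σ => σ (Sum.inl x) = Sum.inl y := by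
        ext σ
        rw [Finset.mem_filter, mem_ext_update (hf.1 x hx)]
      rw [this, Finset.card_eq_sum_ones, Finset.sum_filter, Finset.sum_filter]
      push_cast
      rw [← Finset.sum_add_distrib]
      refine Finset.sum_congr rfl fun σ _ => ?_
      split_ifs <;> simp
    have c1 : n * (ext B S').card = (ext B S).card := by
      rw [hn]
      exact_mod_cast card_ext_update (hf.1 x hx) (hf.2 y hy)
    have c2 := first (B := B) (hf.update hx hy)
    have c3 : ((Fv B S').card : ℝ) = n - 1 := by
      have := card_Fv_update (B := B) (hf.1 x hx) (hf.2 y hy)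
      rw [hn, ← this]
      push_cast
      ring
    have c4 : ((X.erase x).card : ℝ) = X.card - 1 := by
      rw [Finset.card_erase_of_mem hx, Nat.cast_sub hX.card_pos]; simp
    have c5 : ((Y.erase y).card : ℝ) = Y.card - 1 := by
      rw [Finset.card_erase_of_mem hy, Nat.cast_sub hY.card_pos]; simp
    rw [c3, c4, c5] at c2
    set T := ∑ σ ∈ ext B S', NN (X.erase x) (Y.erase y) σ with hT
    set e' : ℝ := ((ext B S').card : ℝ) with he'
    have he0 : 0 ≤ e' := Nat.cast_nonneg _
    have hT0 : 0 ≤ T := Finset.sum_nonneg fun σ _ => NN_nonneg _ _ σ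
    -- n T ≤ |X||Y| e'
    have c6 : n * T ≤ X.card * Y.card * e' := by
      have hn1 : 1 ≤ n := hX1.trans hXnr
      rcases eq_or_lt_of_le hn1 with h | h
      · have hX2 : (X.card : ℝ) = 1 := le_antisymm (by linarith) hX1
        have hX3 : X.erase x = ∅ := by
          rw [← Finset.card_eq_zero]
          have : X.card = 1 := by exact_mod_cast hX2
          rw [Finset.card_erase_of_mem hx, this]
        have hT1 : T = 0 := by
          rw [hT]
          refine Finset.sum_eq_zero fun σ _ => ?_
          rw [hX3]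
          simp [NN]
        rw [hT1, mul_zero]
        positivity
      · have h1 : n * ((X.card : ℝ) - 1) * (Y.card - 1) ≤ X.card * Y.card * (n - 1) := by
          nlinarith
        have h2 : (n - 1) * (n * T) ≤ (n - 1) * (X.card * Y.card * e') := by
          calc (n - 1) * (n * T) = n * ((n - 1) * T) := by ring
            _ = n * ((X.card - 1) * (Y.card - 1) * e') := by rw [c2]
            _ = (n * ((X.card : ℝ) - 1) * (Y.card - 1)) * e' := by ring
            _ ≤ (X.card * Y.card * (n - 1)) * e' := by gcongr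
            _ = (n - 1) * (X.card * Y.card * e') := by ring
        exact le_of_mul_le_mul_left h2 (by linarith)
    rw [e3]
    have hn0 : 0 ≤ n := by rw [hn]; positivity
    calc n ^ 2 * (e' + T) = n * (n * e') + n * (n * T) := by ring
      _ ≤ n * (n * e') + n * (X.card * Y.card * e') := by gcongr
      _ = (n * e') * (n + X.card * Y.card) := by ring
      _ = (ext B S).card * (n + X.card * Y.card) := by rw [c1]
  simp_rw [e1]
  rw [Finset.sum_comm, Finset.mul_sum]
  calc ∑ x ∈ X, n ^ 2 * ∑ σ ∈ ext B S, ∑ y ∈ Y, (if σ (Sum.inl x) = Sum.inl y then 1 else 0) *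
        (1 + NN (X.erase x) (Y.erase y) σ)
      ≤ ∑ x ∈ X, ∑ y ∈ Y, (ext B S).card * (n + X.card * Y.card) := by
        refine Finset.sum_le_sum fun x hx => ?_
        rw [Finset.sum_comm, Finset.mul_sum]
        exact Finset.sum_le_sum fun y hy => e2 x hx y hy
    _ = X.card * Y.card * (ext B S).card * (n + X.card * Y.card) := by
        rw [Finset.sum_const, Finset.sum_const, nsmul_eq_mul, nsmul_eq_mul]
        ring

theorem nrm_sum_smul_pt_le (E : Finset (PV H B)) (a : PV H B → ℝ) :
    nrm (∑ σ ∈ E, a σ • pt σ) ≤ ∑ σ ∈ E, |a σ| := by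
  refine (nrm_sum_le _ _).trans (Finset.sum_le_sum fun σ _ => ?_)
  rw [nrm_smul, nrm_pt, mul_one]

/-- the law with one planted pair -/
theorem US_update {S : H → Option H} (hS : PInj S) {x y : H} (hx : S x = none)
    (hy : ∀ x', S x' ≠ some y) :
    US B (Function.update S x (some y)) = ∑ σ ∈ ext B S,
      ((Fv B S).card / (ext B S).card * (if σ (Sum.inl x) = Sum.inl y then 1 else 0) : ℝ) • pt σ := by
  have hne := ext_nonempty (B := B) _ S hS rfl
  have hE : ((ext B S).card : ℝ) ≠ 0 := by exact_mod_cast hne.card_pos.ne'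
  have hc := card_ext_update (B := B) hx hy
  have hc' : ((Fv B S).card : ℝ) * (ext B (Function.update S x (some y))).card =
      (ext B S).card := by exact_mod_cast hc
  have hE' : ((ext B (Function.update S x (some y))).card : ℝ) ≠ 0 := by
    intro h
    rw [h, mul_zero] at hc'
    exact hE hc'.symm
  have h1 : ext B (Function.update S x (some y)) =
      (ext B S).filter fun σ => σ (Sum.inl x) = Sum.inl y := by
    ext σ
    rw [Finset.mem_filter, mem_ext_update hx]
  have h2 : ((Fv B S).card : ℝ) / (ext B S).card =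
      ((ext B (Function.update S x (some y))).card : ℝ)⁻¹ := by
    rw [← hc']
    have hF : ((Fv B S).card : ℝ) ≠ 0 := by
      intro h
      rw [h, zero_mul] at hc'
      exact hE hc'.symm
    field_simp
  unfold US unif
  rw [Finset.smul_sum]
  conv_lhs => rw [h1, Finset.sum_filter]
  rw [← h1]
  refine Finset.sum_congr rfl fun σ _ => ?_
  rw [h2]
  split_ifs
  · rw [mul_one]
  · rw [mul_zero, zero_smul]

theorem US_eq (S : H → Option H) : US B S = ∑ σ ∈ ext B S, (((ext B S).card : ℝ)⁻¹) • pt σ := by
  unfold US unif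
  rw [Finset.smul_sum]

end

theorem var : VarStatement := by
  intro H B _ _ _ _ hB S hS X Y hX hY hXS hYS
  have hf : Free S X Y := ⟨hXS, hYS⟩
  have hne := ext_nonempty (B := B) _ S hS rfl
  have hE : (0 : ℝ) < (ext B S).card := by exact_mod_cast hne.card_pos
  have hX1 : (1 : ℝ) ≤ X.card := by exact_mod_cast hX.card_pos
  have hY1 : (1 : ℝ) ≤ Y.card := by exact_mod_cast hY.card_pos
  have hXn := (card_le_Fv (B := B) hS hf).1
  have hn1 : (1 : ℝ) ≤ (Fv B S).card := hX1.trans (Nat.cast_le.2 hXn)
  set n : ℝ := ((Fv B S).card : ℝ) with hn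
  set E : ℝ := ((ext B S).card : ℝ) with hEdef
  set P : ℝ := (X.card : ℝ) * Y.card with hP
  have hP1 : 1 ≤ P := by nlinarith
  have key : (((X.card : ℝ) * Y.card)⁻¹ • ∑ x ∈ X, ∑ y ∈ Y,
          US B (Function.update S x (some y)) - US B S) =
      ∑ σ ∈ ext B S, (E⁻¹ * (n / P * NN X Y σ - 1)) • pt σ := by
    have h1 : ∑ x ∈ X, ∑ y ∈ Y, US B (Function.update S x (some y)) =
        ∑ σ ∈ ext B S, (n / E * NN X Y σ) • pt σ := by
      rw [Finset.sum_congr rfl fun x hx => Finset.sum_congr rfl fun y hy =>
        US_update (B := B) hS (hXS x hx) (hYS y hy)]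
      rw [Finset.sum_congr rfl fun x _ => Finset.sum_comm, Finset.sum_comm]
      refine Finset.sum_congr rfl fun σ _ => ?_
      rw [NN, Finset.mul_sum, Finset.sum_smul]
      refine Finset.sum_congr rfl fun x _ => ?_
      rw [Finset.mul_sum, Finset.sum_smul]
    rw [h1, US_eq, Finset.smul_sum, ← Finset.sum_sub_distrib]
    refine Finset.sum_congr rfl fun σ _ => ?_
    rw [smul_smul, ← sub_smul]
    congr 1
    have hP0 : P ≠ 0 := by positivity
    rw [← hEdef]
    simp only [← hP]
    field_simp
  rw [key]
  refine (nrm_sum_smul_pt_le _ _).trans ?_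
  -- Cauchy-Schwarz
  have hfirst := first (B := B) hf
  have hsecond := second (B := B) hS hf hX hY
  rw [← hn, ← hEdef, ← hP] at hfirst hsecond
  set S1 := ∑ σ ∈ ext B S, NN X Y σ with hS1
  set S2 := ∑ σ ∈ ext B S, NN X Y σ ^ 2 with hS2
  have hcs : (∑ σ ∈ ext B S, |n / P * NN X Y σ - 1|) ^ 2 ≤ E ^ 2 * (n / P) := by
    have h1 := sq_sum_le_card_mul_sum_sq (s := ext B S) (f := fun σ => |n / P * NN X Y σ - 1|)
    have h2 : ∑ σ ∈ ext B S, |n / P * NN X Y σ - 1| ^ 2 = (n / P) ^ 2 * S2 - 2 * (n / P) * S1 + E := by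
      rw [hS1, hS2, Finset.mul_sum, Finset.mul_sum, ← Finset.sum_sub_distrib]
      have : E = ∑ σ ∈ ext B S, (1 : ℝ) := by simp [hEdef]
      rw [this, ← Finset.sum_add_distrib]
      refine Finset.sum_congr rfl fun σ _ => ?_
      rw [sq_abs]
      ring
    have hP0 : 0 < P := by linarith
    have h3 : (n / P) * S1 = E := by
      field_simp
      linarith
    have h4 : (n / P) ^ 2 * S2 ≤ E * (n / P) + E := by
      have : (n / P) ^ 2 * S2 = (n ^ 2 * S2) / P ^ 2 := by ring
      rw [this, div_le_iff₀ (by positivity)]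
      calc n ^ 2 * S2 ≤ P * E * (n + P) := hsecond
        _ = (E * (n / P) + E) * P ^ 2 := by field_simp
    calc _ ≤ E * ∑ σ ∈ ext B S, |n / P * NN X Y σ - 1| ^ 2 := h1
      _ = E * ((n / P) ^ 2 * S2 - 2 * ((n / P) * S1) + E) := by rw [h2]; ring
      _ ≤ E * (E * (n / P)) := by
          rw [h3]
          gcongr
          linarith
      _ = E ^ 2 * (n / P) := by ring
  have hsum : ∑ σ ∈ ext B S, |E⁻¹ * (n / P * NN X Y σ - 1)| =
      E⁻¹ * ∑ σ ∈ ext B S, |n / P * NN X Y σ - 1| := by
    rw [Finset.mul_sum]
    refine Finset.sum_congr rfl fun σ _ => ?_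
    rw [abs_mul, abs_of_pos (by positivity)]
  rw [hsum]
  have h5 : ∑ σ ∈ ext B S, |n / P * NN X Y σ - 1| ≤ E * Real.sqrt (n / P) := by
    apply le_of_sq_le_sq _ (by positivity)
    rw [mul_pow, Real.sq_sqrt (by positivity)]
    exact hcs
  have h6 : n ≤ (Fintype.card H + Fintype.card B : ℕ) := by
    rw [hn, ← Fintype.card_sum]
    exact_mod_cast Finset.card_le_univ _
  calc E⁻¹ * ∑ σ ∈ ext B S, |n / P * NN X Y σ - 1| ≤ E⁻¹ * (E * Real.sqrt (n / P)) := by gcongr
    _ = Real.sqrt (n / P) := by field_simp
    _ ≤ Real.sqrt ((Fintype.card H + Fintype.card B : ℕ) / P) := by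
        apply Real.sqrt_le_sqrt
        gcongr

end Pool.Agent.Helper51_CW
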